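import Pool.Agent.H646R2.SV.Fin
import Pool.Agent.H646R2.SV.Sanity

/-!
There is a nonstandard model `A` of Peano arithmetic such that no Solovay family for `Th(A)`
relative to `A` consists of functions which change their value at most once.

All definitions used in the statement are in the file `Pool/Agent/H646R2/SV/Defs.lean`.
-/

set_option autoImplicit false

open FirstOrder FirstOrder.Language Pool.Agent.H646R2.SV.Defs

namespace Pool.Agent.Results.MP_1378ec_lc.SolovayOneChange

/-- There is a structure `A` of the language `{0, S, +, ·}` with universe `ℕ` which is a
nonstandard model of Peano arithmetic, and such that there is no Solovay family `(t n)` for the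
complete theory of `A` relative to the atomic diagram of `A` in which every function `t n`
changes its value at most once. -/
theorem result : ∃ A : LS.Structure ℕ, @IsPA ℕ A ∧ @Nonstandard ℕ A ∧
    ¬ ∃ t : ℕ → ℕ → ℕ, IsSolovayFamily (Th A) (diag A) t ∧ ∀ n ≥ 1, ChangesOnce (t n) :=
  Pool.Agent.H646R2.SV.final

end Pool.Agent.Results.MP_1378ec_lc.SolovayOneChange
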